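import Pool.Agent.R329.SalemEx

set_option autoImplicit false

/-!
# MP_8d213d_nt: for every Salem number `α` the set of the values `limsup ‖ξ α ^ n‖` is not closed

Let `α` be a Salem number and let `L α` be the set of the numbers `limsup ‖ξ α ^ n‖`, `ξ` real.
Let `ℓ` be the sum of the absolute values of the coefficients of the minimal polynomial of `α`.
Then `L α` is dense in `[0, 1/2]`, but `L α ∩ [0, 1/ℓ)` is countable.  So `L α` is not closed.
-/

namespace Pool.Agent.Results.MP_8d213d_nt.SalemSpectrumNotClosed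

open Filter Polynomial

/-- the distance from `x` to the nearest integer -/
noncomputable def distInt (x : ℝ) : ℝ := |x - round x|

/-- the set of all values `limsup ‖ξ α ^ n‖` (`n → ∞`), `ξ` real -/
noncomputable def L (α : ℝ) : Set ℝ :=
  {t | ∃ ξ : ℝ, t = limsup (fun n : ℕ => distInt (ξ * α ^ n)) atTop}

/-- Salem numbers: real algebraic integers `α > 1` such that all conjugates (complex roots of the
minimal polynomial) other than `α` have absolute value at most `1`, and at least one of them has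
absolute value `1` -/
def IsSalem (α : ℝ) : Prop :=
  1 < α ∧ IsIntegral ℤ α ∧
    (∀ z : ℂ, aeval z (minpoly ℤ α) = 0 → z ≠ (α : ℂ) → ‖z‖ ≤ 1) ∧
    ∃ z : ℂ, aeval z (minpoly ℤ α) = 0 ∧ ‖z‖ = 1

theorem result :
    (∃ α : ℝ, IsSalem α) ∧
    ∀ α : ℝ, IsSalem α →
      ¬ IsClosed (L α) ∧
      -- `L α` is dense in `[0, 1/2]`
      Set.Icc (0 : ℝ) (1 / 2) ⊆ closure (L α) ∧
      -- the part of `L α` below `1 / ℓ` is countable
      (L α ∩ Set.Iio (1 / ∑ i ∈ Finset.range ((minpoly ℤ α).natDegree + 1),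
        |((minpoly ℤ α).coeff i : ℝ)|)).Countable :=
  ⟨⟨_, Pool.Agent.R329.Salem.salem_α4⟩, fun α h =>
    ⟨Pool.Agent.R329.Salem.not_closed α h, Pool.Agent.R329.Salem.dense α h,
      Pool.Agent.R329.Salem.countable α h.1 (minpoly ℤ α) (minpoly.monic h.2.1)
        (minpoly.aeval ℤ α)⟩⟩

end Pool.Agent.Results.MP_8d213d_nt.SalemSpectrumNotClosed
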